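import Mathlib
import Pool.Agent.Helper376.CL.Defs
import Pool.Agent.Helper376.CL.SplitDefs
import Pool.Agent.Helper376.CL.Asm2

/-! The groups `F₂ × ℤ` and `F₂ × F₂` have homeomorphic Bestvina boundaries; the first one splits over
a two-ended subgroup and the second one does not. -/

namespace Pool.Agent.Results.MP_ff8665_gt.SameBoundary

open Pool.Agent.Helper376.CL

theorem result : ∃ (Z : Type) (_ : TopologicalSpace Z),
    IsZBoundary (FreeGroup (Fin 2) × Multiplicative ℤ) Z ∧
    IsZBoundary (FreeGroup (Fin 2) × FreeGroup (Fin 2)) Z ∧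
    SplitsOverTwoEnded (FreeGroup (Fin 2) × Multiplicative ℤ) ∧
    ¬ SplitsOverTwoEnded (FreeGroup (Fin 2) × FreeGroup (Fin 2)) :=
  main_splitting

end Pool.Agent.Results.MP_ff8665_gt.SameBoundary
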